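import Pool.Agent.H578R3.TorFinal

open CategoryTheory CategoryTheory.Limits

universe u

namespace Pool.Agent.Results.MP_7385e8_ag.TowerRigid

/-- `B = A[x]` inside the local ring `R`, where `x` lies in the maximal ideal of `R` and
`A[X]/(p) ≅ A[x]` for a monic polynomial `p` over `A`. -/
def MonogenicStep (R : Type u) [CommRing R] [IsLocalRing R] (A B : Subring R) : Prop :=
  ∃ (x : R) (p : Polynomial A), x ∈ IsLocalRing.maximalIdeal R ∧ p.Monic ∧
    (∀ b : R, b ∈ B ↔ ∃ q : Polynomial A, Polynomial.aeval x q = b) ∧
    (∀ q : Polynomial A, Polynomial.aeval x q = 0 ↔ p ∣ q)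

/-- `R` is reached from the subring `V` by a chain `V = A₀ ⊆ A₁ ⊆ ⋯ ⊆ Aₙ = R` of monogenic
steps, `Aᵢ₊₁ = Aᵢ[xᵢ] ≅ Aᵢ[X]/(pᵢ)` with `pᵢ` monic. -/
def IsMonogenicTower (R : Type u) [CommRing R] [IsLocalRing R] (V : Subring R) : Prop :=
  Relation.ReflTransGen (MonogenicStep R) V ⊤

/-- The pair `(M, N)` is Tor-rigid: if `Tor_i(M, N) = 0` for some `i > 0`, then
`Tor_j(M, N) = 0` for all `j ≥ i`. -/
def IsTorRigid (R : Type u) [CommRing R] (M N : Type u) [AddCommGroup M] [Module R M]
    [AddCommGroup N] [Module R N] : Prop :=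
  ∀ i : ℕ, 0 < i →
    IsZero (((Tor (ModuleCat.{u} R) i).obj (ModuleCat.of R M)).obj (ModuleCat.of R N)) →
    ∀ j : ℕ, i ≤ j →
      IsZero (((Tor (ModuleCat.{u} R) j).obj (ModuleCat.of R M)).obj (ModuleCat.of R N))

/-- **Tor-rigidity over towers of monogenic extensions.** Let `R` be a local ring which is obtained
from a subring `V` that is a Dedekind domain (a field or a discrete valuation ring, for instance) by
finitely many monogenic extensions `A ⊆ A[x] ≅ A[X]/(p)`, `p` monic, `x` in the maximal ideal of
`R`. Such an `R` is a complete intersection of dimension at most one; the number of steps, hence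
the codimension, is arbitrary. Then every pair `(M, N)`, with `M` a finitely generated and `N` a
finite length `R`-module, is Tor-rigid. When `V` is a field this says that any two finite length
`R`-modules form a Tor-rigid pair. -/
theorem result (R : Type u) [CommRing R] [IsLocalRing R] (V : Subring R) [IsDedekindDomain V]
    (hV : IsMonogenicTower R V)
    (M N : Type u) [AddCommGroup M] [Module R M] [Module.Finite R M]
    [AddCommGroup N] [Module R N] (hN : IsFiniteLength R N) : IsTorRigid R M N :=
  Pool.Agent.H578R3.TorRigid.torRigid V hV M N hN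

end Pool.Agent.Results.MP_7385e8_ag.TowerRigid
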